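import Pool.Agent.Helper74.RN.St

/-!
# Project RN (MP_26f0da_lc), module PDA: supplies with a new label
-/

set_option autoImplicit false

namespace Pool.Agent.Helper7.RN

open Pool.Agent.Helper74 Pool.Agent.Helper74.RN
open Pool.Agent.Helper74.WB (OP QW rl enc iv)

/-- The additional letters of `pd`. -/
private def ex (s : Bool) : List ((ℕ × Bool) × Bool) := if s then [] else [((0, true), true)]

private theorem op_ex (s : Bool) (w : List ((ℕ × Bool) × Bool)) (h : OP w) : OP (ex s ++ w) := by
  unfold ex
  split_ifs
  · simpa using h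
  · exact OP.skip _ _ h

private theorem pd_eq (a : (ℕ × Bool) × Bool) :
    pd a = ((a.1.1 + 1, a.1.2), a.2) :: ex a.1.2 := rfl

private theorem forward (w : List ((ℕ × Bool) × Bool)) (h : OP w) : OP (w.flatMap pd) := by
  induction h with
  | nil => exact OP.nil
  | skip x w _ ih =>
    rw [List.flatMap_cons, pd_eq]
    exact OP.skip _ _ (op_ex _ _ ih)
  | wrap x o o' u v _ _ ihu ihv =>
    have h1 : (((x, o) :: (u ++ (iv x, o') :: v)).flatMap pd) =
        ((x.1 + 1, x.2), o) :: ((ex x.2 ++ u.flatMap pd) ++
          (iv (x.1 + 1, x.2), o') :: (ex (!x.2) ++ v.flatMap pd)) := by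
      simp [List.flatMap_cons, List.flatMap_append, pd_eq, iv]
    rw [h1]
    exact OP.wrap _ _ _ _ _ (op_ex _ _ ihu) (op_ex _ _ ihv)

private theorem backward (z : List ((ℕ × Bool) × Bool)) (h : OP z)
    (h0 : ∀ a ∈ z, a.1.1 = 0 → a = ((0, true), true)) :
    OP (z.filter fun a => decide (a.1.1 ≠ 0)) := by
  induction h with
  | nil => exact OP.nil
  | skip x w _ ih =>
    have ih' := ih fun a ha => h0 a (List.mem_cons_of_mem _ ha)
    by_cases hx : x.1 = 0
    · rw [List.filter_cons_of_neg (by simp [hx])]
      exact ih'
    · rw [List.filter_cons_of_pos (by simp [hx])]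
      exact OP.skip _ _ ih'
  | wrap x o o' u v _ _ ihu ihv =>
    have ihu' := ihu fun a ha => h0 a (by simp [ha])
    have ihv' := ihv fun a ha => h0 a (by simp [ha])
    have hx : x.1 ≠ 0 := by
      intro hx
      have h1 := h0 (x, o) (by simp) hx
      have h2 := h0 (iv x, o') (by simp) (by simpa [iv] using hx)
      have h3 : x.2 = true := by
        have := congrArg (fun a : (ℕ × Bool) × Bool => a.1.2) h1
        simpa using this
      have h4 : (!x.2) = true := by
        have := congrArg (fun a : (ℕ × Bool) × Bool => a.1.2) h2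
        simpa [iv] using this
      rw [h3] at h4
      simp at h4
    rw [List.filter_cons_of_pos (by simp [hx]), List.filter_append,
      List.filter_cons_of_pos (by simp [hx, iv])]
    exact OP.wrap _ _ _ _ _ ihu' ihv'

private theorem filter_pd (w : List ((ℕ × Bool) × Bool)) :
    (w.flatMap pd).filter (fun a => decide (a.1.1 ≠ 0)) = w.map (rl fun i => i + 1) := by
  induction w with
  | nil => rfl
  | cons a w ih =>
    rw [List.flatMap_cons, pd_eq, List.map_cons, List.cons_append,
      List.filter_cons_of_pos (by simp), List.filter_append, ih]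
    have h1 : (ex a.1.2).filter (fun a => decide (a.1.1 ≠ 0)) = [] := by
      unfold ex
      split_ifs
      · rfl
      · rw [List.filter_cons_of_neg (by simp)]
        rfl
    rw [h1]
    rfl

/-- Supplies with a new label. -/
theorem hPDA (hREL : WB.StREL) : StPDA := by
  intro w
  refine ⟨forward w, fun h => ?_⟩
  have h1 := backward _ h (by
    intro a ha ha0
    obtain ⟨b, _, hb⟩ := List.mem_flatMap.1 ha
    rw [pd_eq, List.mem_cons] at hb
    rcases hb with rfl | hb
    · simp at ha0
    · unfold ex at hb
      split_ifs at hb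
      · simp at hb
      · simpa using hb)
  rw [filter_pd] at h1
  exact (hREL _ _ (fun i : ℕ => i + 1) (fun a b h => by simpa using h) w).2 h1

end Pool.Agent.Helper7.RN
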